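import Mathlib
import Pool.Agent.H52.FaceIneq

open Set Module MeasureTheory

namespace Pool.Agent.H52.Cont

open Pool.Agent.H52.LW Pool.Agent.H52.ONB Pool.Agent.H52.Poly

variable {E : Type*} [NormedAddCommGroup E] [InnerProductSpace ℝ E] [FiniteDimensional ℝ E]
variable [MeasurableSpace E] [BorelSpace E]

/-- volume of a set of coordinates, read in the Euclidean space -/
lemma volume_ofLp_image {n : ℕ} (K : Set (Fin n → ℝ)) :
    volume K = (volume : Measure (EuclideanSpace ℝ (Fin n))) (WithLp.toLp 2 '' K) := by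
  have h := (PiLp.volume_preserving_toLp (Fin n)).measure_preimage_emb
    (MeasurableEquiv.toLp 2 (Fin n → ℝ)).measurableEmbedding (WithLp.toLp 2 '' K)
  rw [← h, Set.preimage_image_eq _ (WithLp.toLp_injective 2)]

/-- orthonormal coordinates as a map to the Euclidean space -/
lemma norm_toLp_coord_le {n : ℕ} {u : Fin n → E} (hu : Orthonormal ℝ u) (x : E) :
    ‖(WithLp.toLp 2 (coord u x) : EuclideanSpace ℝ (Fin n))‖ ≤ ‖x‖ := by
  rw [EuclideanSpace.norm_eq]
  have h1 := hu.sum_inner_products_le x (s := Finset.univ)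
  have h2 : ∀ j, ‖(WithLp.toLp 2 (coord u x) : EuclideanSpace ℝ (Fin n)) j‖ = ‖(inner ℝ (u j) x : ℝ)‖ :=
    fun j => rfl
  simp only [h2]
  calc √(∑ j, ‖(inner ℝ (u j) x : ℝ)‖ ^ 2) ≤ √(‖x‖ ^ 2) := Real.sqrt_le_sqrt h1
    _ = ‖x‖ := Real.sqrt_sq (norm_nonneg _)

/-- an orthogonal projection to orthonormal coordinates does not increase the measure -/
lemma volume_coord_le {n : ℕ} {u : Fin n → E} (hu : Orthonormal ℝ u) (G : Set E) :
    volume (coord u '' G) ≤ (Measure.euclideanHausdorffMeasure n : Measure E) G := by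
  have hl : LipschitzWith 1 (fun x : E => (WithLp.toLp 2 (coord u x) : EuclideanSpace ℝ (Fin n))) := by
    apply LipschitzWith.of_dist_le_mul
    intro x y
    rw [dist_eq_norm, dist_eq_norm, NNReal.coe_one, one_mul]
    have : (WithLp.toLp 2 (coord u x) : EuclideanSpace ℝ (Fin n)) - WithLp.toLp 2 (coord u y) =
        WithLp.toLp 2 (coord u (x - y)) := by
      rw [map_sub]; rfl
    rw [this]
    exact norm_toLp_coord_le hu _
  have h1 : (WithLp.toLp 2 '' (coord u '' G) : Set (EuclideanSpace ℝ (Fin n))) =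
      (fun x : E => (WithLp.toLp 2 (coord u x) : EuclideanSpace ℝ (Fin n))) '' G := by
    rw [Set.image_image]
  rw [volume_ofLp_image, h1, ← EuclideanSpace.euclideanHausdorffMeasure_eq_volume]
  rw [Measure.euclideanHausdorffMeasure_def, Measure.euclideanHausdorffMeasure_def]
  rw [Measure.smul_apply, Measure.smul_apply]
  have h2 := hl.hausdorffMeasure_image_le (d := (n : ℝ)) (by positivity) G
  simp only [NNReal.coe_one, ENNReal.coe_one, ENNReal.one_rpow, one_mul] at h2
  rw [ENNReal.smul_def, ENNReal.smul_def, smul_eq_mul, smul_eq_mul]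
  gcongr

/-- in orthonormal coordinates of its own span a set keeps its measure -/
lemma measure_eq_volume_coord {n : ℕ} {u : Fin n → E} (hu : Orthonormal ℝ u) (F : Set E) (p0 : E)
    (hp0 : p0 ∈ F) (huD : ∀ j, u j ∈ vectorSpan ℝ F) (hD : finrank ℝ (vectorSpan ℝ F) = n) :
    (Measure.euclideanHausdorffMeasure n : Measure E) F = volume (coord u '' F) := by
  set g : EuclideanSpace ℝ (Fin n) → E := fun y => p0 + ∑ j, (y j - (inner ℝ (u j) p0 : ℝ)) • u j with hg
  have hgi : Isometry g := by
    apply Isometry.of_dist_eq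
    intro y y'
    rw [dist_eq_norm, dist_eq_norm]
    have h1 : g y - g y' = ∑ j, ((y - y') j) • u j := by
      simp only [hg]
      rw [add_sub_add_left_eq_sub, ← Finset.sum_sub_distrib]
      apply Finset.sum_congr rfl
      intro j _
      rw [← sub_smul]; congr 1
      simp only [PiLp.sub_apply]
      ring
    have h2 : ‖g y - g y'‖ ^ 2 = ‖y - y'‖ ^ 2 := by
      rw [h1, EuclideanSpace.norm_sq_eq, ← real_inner_self_eq_norm_sq, hu.inner_sum]
      apply Finset.sum_congr rfl
      intro j _
      simp [sq]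
    exact (sq_eq_sq₀ (norm_nonneg _) (norm_nonneg _)).1 h2
  have h2 : F = g '' (WithLp.toLp 2 '' (coord u '' F)) := by
    rw [Set.image_image, Set.image_image]
    have h3 : ∀ x ∈ F, g (WithLp.toLp 2 (coord u x)) = x := by
      intro x hx
      have h4 := expand hu huD hD (vsub_mem_vectorSpan ℝ hx hp0)
      simp only [vsub_eq_sub] at h4
      have h5 : ∀ j, (inner ℝ (u j) x : ℝ) - inner ℝ (u j) p0 = inner ℝ (u j) (x - p0) := by
        intro j; rw [inner_sub_right]
      have h6 : g (WithLp.toLp 2 (coord u x)) = p0 + ∑ j, ((inner ℝ (u j) x : ℝ) - inner ℝ (u j) p0) • u j := rfl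
      rw [h6]
      simp only [h5]
      rw [← h4]; abel
    ext x
    constructor
    · intro hx; exact ⟨x, hx, h3 x hx⟩
    · rintro ⟨x', hx', rfl⟩
      change g (WithLp.toLp 2 (coord u x')) ∈ F
      rw [h3 x' hx']; exact hx'
  rw [volume_ofLp_image, ← EuclideanSpace.euclideanHausdorffMeasure_eq_volume]
  conv_lhs => rw [h2]
  exact hgi.euclideanHausdorffMeasure_image _

open Classical in
theorem face_ineq_vol (S : Finset E) (m : ℕ) (F : FaceT S (m + 1)) :
    ((Measure.euclideanHausdorffMeasure (m + 1) : Measure E) F.1) ^ m ≤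
      ∑ σ ∈ (Finset.univ : Finset (Fin (m + 1) → FaceT S m)).filter
        (fun σ => (∀ j, (σ j).1 ⊆ F.1) ∧ finrank ℝ (⨅ j, hat (σ j).1 : Submodule ℝ (E × ℝ)) ≤ 1),
        ∏ j, (Measure.euclideanHausdorffMeasure m : Measure E) (σ j).1 := by
  obtain ⟨F, hF, hFne, hFdim⟩ := F
  simp only
  set D := vectorSpan ℝ F with hD
  have hFc := face_isCompact S F hF
  have hFconv := face_convex S F hF
  obtain ⟨p0, hp0⟩ := hFne
  -- normals
  have hν : ∀ G : FaceT S m, ∃ v ∈ D, (G.1 ⊆ F → (v ≠ 0 ∧ (∀ x ∈ vectorSpan ℝ G.1, inner ℝ v x = (0 : ℝ)) ∧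
      ∀ x ∈ D, inner ℝ v x = (0 : ℝ) → x ∈ vectorSpan ℝ G.1)) ∧ (¬ G.1 ⊆ F → v = 0) := by
    intro G
    by_cases hGF : G.1 ⊆ F
    · have hle : vectorSpan ℝ G.1 ≤ D := vectorSpan_mono ℝ hGF
      have h1 := Submodule.finrank_add_inf_finrank_orthogonal hle
      rw [G.2.2.2, hFdim] at h1
      have h2 : ((vectorSpan ℝ G.1)ᗮ ⊓ D) ≠ ⊥ := by
        intro h; rw [h, finrank_bot] at h1; omega
      obtain ⟨v, hv, hv0⟩ := (Submodule.ne_bot_iff _).1 h2
      have hvD : v ∈ D := hv.2
      have hvorth : ∀ x ∈ vectorSpan ℝ G.1, inner ℝ v x = (0 : ℝ) :=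
        (Submodule.mem_orthogonal' _ v).1 hv.1
      refine ⟨v, hvD, fun _ => ⟨hv0, hvorth, ?_⟩, fun h => absurd hGF h⟩
      have h3 := Submodule.finrank_add_inf_finrank_orthogonal
        (show Submodule.span ℝ {v} ≤ D from (Submodule.span_singleton_le_iff_mem _ _).2 hvD)
      rw [finrank_span_singleton hv0, hFdim] at h3
      have h4 : vectorSpan ℝ G.1 = (Submodule.span ℝ {v})ᗮ ⊓ D := by
        apply Submodule.eq_of_le_of_finrank_eq
        · intro x hx
          refine ⟨?_, hle hx⟩
          change x ∈ (Submodule.span ℝ {v})ᗮ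
          rw [Submodule.mem_orthogonal_singleton_iff_inner_right]
          exact hvorth x hx
        · rw [G.2.2.2]; omega
      intro x hxD hx
      rw [h4]
      refine ⟨?_, hxD⟩
      change x ∈ (Submodule.span ℝ {v})ᗮ
      rw [Submodule.mem_orthogonal_singleton_iff_inner_right]
      exact hx
    · exact ⟨0, D.zero_mem, fun h => absurd h hGF, fun _ => rfl⟩
  choose ν hνD hν1 hν0 using hν
  obtain ⟨u, hu, huD, hineq⟩ := exists_onb (fun G : FaceT S m => (Measure.euclideanHausdorffMeasure m : Measure E) G.1) (m + 1) D hFdim ν hνD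
  -- Loomis-Whitney
  set K := coord u '' F with hK
  have hKc : IsCompact K := hFc.image (coord u).continuous
  have hLW := loomis_whitney m K hKc ⟨coord u p0, p0, hp0, rfl⟩
  have hdrop : ∀ j : Fin (m + 1), dropC j '' K = coord (fun i : Fin m => u (j.succAbove i)) '' F := by
    intro j
    rw [hK, Set.image_image]
    rfl
  simp only [hdrop] at hLW
  -- projections of facets
  have hproj : ∀ j : Fin (m + 1), volume (coord (fun i : Fin m => u (j.succAbove i)) '' F) ≤
      ∑ G ∈ Finset.univ.filter (fun G : FaceT S m => inner ℝ (ν G) (u j) ≠ (0 : ℝ)), (Measure.euclideanHausdorffMeasure m : Measure E) G.1 := by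
    intro j
    set ρ := coord (fun i : Fin m => u (j.succAbove i)) with hρ
    set A : Set (Fin m → ℝ) := ⋃ G ∈ Finset.univ.filter (fun G : FaceT S m => inner ℝ (ν G) (u j) ≠ (0 : ℝ)), ρ '' G.1 with hA
    set N : Set (Fin m → ℝ) := ⋃ G ∈ {G : Set E | IsExposed ℝ (convexHull ℝ (S : Set E)) G ∧ volume (ρ '' G) = 0}, ρ '' G with hN
    have hN0 : volume N = 0 := by
      rw [hN, measure_biUnion_null_iff]
      · intro G hG; exact hG.2
      · exact ((finite_faces S).subset (fun G hG => hG.1)).countable
    have hsub : ρ '' F ⊆ A ∪ N := by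
      rintro _ ⟨x, hx, rfl⟩
      obtain ⟨x', hx', hxx', G, hG, hx'G, hGdim⟩ := exit_face hu F hFc hFconv huD hFdim j x hx
      have hρx : ρ x = ρ x' := by
        funext i
        exact (hxx' (j.succAbove i) (Fin.succAbove_ne j i)).symm
      have hGP : IsExposed ℝ (convexHull ℝ (S : Set E)) G := exposed_trans S F G hF hG ⟨x', hx'G⟩
      rw [hρx]
      by_cases h : finrank ℝ (vectorSpan ℝ G) < m ∨ u j ∈ vectorSpan ℝ G
      · right
        rw [hN, Set.mem_iUnion₂]
        exact ⟨G, ⟨hGP, null_image hu G j (by omega) h⟩, x', hx'G, rfl⟩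
      · push Not at h
        left
        rw [hA, Set.mem_iUnion₂]
        let G' : FaceT S m := ⟨G, hGP, ⟨x', hx'G⟩, by omega⟩
        refine ⟨G', ?_, x', hx'G, rfl⟩
        rw [Finset.mem_filter]
        refine ⟨Finset.mem_univ _, ?_⟩
        intro h0
        exact h.2 ((hν1 G' hG.subset).2.2 (u j) (huD j) h0)
    calc volume (ρ '' F) ≤ volume (A ∪ N) := measure_mono hsub
      _ ≤ volume A + volume N := measure_union_le _ _
      _ = volume A := by rw [hN0, add_zero]
      _ ≤ ∑ G ∈ Finset.univ.filter (fun G : FaceT S m => inner ℝ (ν G) (u j) ≠ (0 : ℝ)), volume (ρ '' G.1) :=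
          measure_biUnion_finset_le _ _
      _ ≤ _ := by
          apply Finset.sum_le_sum
          intro G _
          exact volume_coord_le (hu.comp _ (Fin.succAbove_right_injective)) G.1
  -- measure of F versus volume of K
  have hFK : (Measure.euclideanHausdorffMeasure (m + 1) : Measure E) F = volume K :=
    measure_eq_volume_coord hu F p0 hp0 huD hFdim
  calc ((Measure.euclideanHausdorffMeasure (m + 1) : Measure E) F) ^ m = volume K ^ m := by
        rw [hFK]
    _ ≤ ∏ j : Fin (m + 1),
          ∑ G ∈ Finset.univ.filter (fun G : FaceT S m => inner ℝ (ν G) (u j) ≠ (0 : ℝ)),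
            (Measure.euclideanHausdorffMeasure m : Measure E) G.1 := by
        exact hLW.trans (Finset.prod_le_prod' (fun j _ => hproj j))
    _ ≤ _ := by
        refine hineq.trans (Finset.sum_le_sum_of_subset ?_)
        intro σ hσ
        rw [Finset.mem_filter] at hσ ⊢
        have hsub : ∀ j, (σ j).1 ⊆ F := by
          intro j
          by_contra h
          exact hσ.2.ne_zero j (hν0 (σ j) h)
        refine ⟨hσ.1, hsub, ?_⟩
        have hinj : Function.Injective ((LinearMap.snd ℝ E ℝ).domRestrict (⨅ j, hat (σ j).1 : Submodule ℝ (E × ℝ))) := by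
          rw [← LinearMap.ker_eq_bot, Submodule.eq_bot_iff]
          rintro ⟨⟨x, t⟩, hxt⟩ h0
          have ht : t = 0 := h0
          subst ht
          rw [Submodule.mem_iInf] at hxt
          have hxG : ∀ j, x ∈ vectorSpan ℝ (σ j).1 := by
            intro j
            obtain ⟨q, hq⟩ := (σ j).2.2.1
            have := (mem_hat hq _).1 (hxt j)
            simpa using this
          have hxD : x ∈ D := vectorSpan_mono ℝ (hsub 0) (hxG 0)
          have hspan : Submodule.span ℝ (Set.range (fun j => ν (σ j))) = D := by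
            apply Submodule.eq_of_le_of_finrank_eq
            · rw [Submodule.span_le]; rintro _ ⟨j, rfl⟩; exact hνD _
            · rw [finrank_span_eq_card hσ.2, hFdim, Fintype.card_fin]
          have hx0 : x = 0 := by
            have h1 : ∀ y ∈ D, inner ℝ y x = (0 : ℝ) := by
              intro y hy
              rw [← hspan] at hy
              induction hy using Submodule.span_induction with
              | mem y hy =>
                obtain ⟨j, rfl⟩ := hy
                exact (hν1 (σ j) (hsub j)).2.1 x (hxG j)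
              | zero => exact inner_zero_left _
              | add y z _ _ hy hz => rw [inner_add_left, hy, hz, add_zero]
              | smul c y _ hy => rw [inner_smul_left, hy, mul_zero]
            exact inner_self_eq_zero.1 (h1 x hxD)
          subst hx0
          rfl
        have := LinearMap.finrank_le_finrank_of_injective hinj
        rw [finrank_self] at this
        exact this

end Pool.Agent.H52.Cont
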