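import Mathlib
import Pool.Agent.H52.Flats
import Pool.Agent.H52.Assembly
import Pool.Agent.H52.Cont.FaceVol

open Set Module MeasureTheory

namespace Pool.Agent.H52.Cont

open Pool.Agent.H52.Joints Pool.Agent.H52.Poly

variable {E : Type*} [NormedAddCommGroup E] [InnerProductSpace ℝ E] [FiniteDimensional ℝ E]
variable [MeasurableSpace E] [BorelSpace E]

/-- the `m`-content of the polytope `convexHull S`, with the natural normalisation of volume -/
noncomputable def Zv (S : Finset E) (m : ℕ) : ENNReal :=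
  ∑ F : FaceT S m, (Measure.euclideanHausdorffMeasure m : Measure E) F.1

/-- comparison of consecutive contents, with an explicit constant -/
theorem Zv_succ_le (m : ℕ) (hm : 1 ≤ m) (S : Finset E) :
    Zv S (m + 1) ≤ (((m + 1 : ℕ) : ENNReal) * Zv S m) ^ (((m + 1 : ℕ) : ℝ) / (m : ℝ)) := by
  classical
  have hm0 : (0 : ℝ) < m := by exact_mod_cast hm
  set p : ℝ := (1 : ℝ) / m with hp
  have hJ := joints_flats_ennreal (n := m + 1) (by omega) (fun F : FaceT S (m + 1) => hat F.1)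
    (by
      intro F F' h
      exact Subtype.ext (hat_injOn F.2.1 F.2.2.1 F'.2.1 F'.2.2.1 h))
    (by intro F; rw [finrank_hat F.2.2.1, F.2.2.2])
    (fun G : FaceT S m => hat G.1)
    (by intro G; rw [finrank_hat G.2.2.1, G.2.2.2])
    (fun G => (Measure.euclideanHausdorffMeasure m : Measure E) G.1)
  have e1 : (((m + 1 : ℕ) : ℝ) - 1) = m := by push_cast; ring
  rw [e1] at hJ
  have h1 : ∀ F : FaceT S (m + 1), (Measure.euclideanHausdorffMeasure (m + 1) : Measure E) F.1 ≤
      (∑ σ ∈ (Finset.univ : Finset (Fin (m + 1) → FaceT S m)).filter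
      (fun σ => (∀ j, hat (σ j).1 ≤ hat F.1) ∧ finrank ℝ (⨅ j, hat (σ j).1 : Submodule ℝ (E × ℝ)) ≤ 1),
        ∏ j, (Measure.euclideanHausdorffMeasure m : Measure E) (σ j).1) ^ p := by
    intro F
    have h2 := face_ineq_vol S m F
    have h3 : ((Measure.euclideanHausdorffMeasure (m + 1) : Measure E) F.1) =
        (((Measure.euclideanHausdorffMeasure (m + 1) : Measure E) F.1) ^ m) ^ p := by
      rw [← ENNReal.rpow_natCast, ← ENNReal.rpow_mul]
      have : (m : ℝ) * p = 1 := by rw [hp]; field_simp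
      rw [this, ENNReal.rpow_one]
    rw [h3]
    apply ENNReal.rpow_le_rpow _ (by positivity)
    refine h2.trans (Finset.sum_le_sum_of_subset ?_)
    intro σ hσ
    rw [Finset.mem_filter] at hσ ⊢
    exact ⟨hσ.1, fun j => hat_mono (hσ.2.1 j), hσ.2.2⟩
  calc Zv S (m + 1) ≤ ∑ F : FaceT S (m + 1),
      (∑ σ ∈ (Finset.univ : Finset (Fin (m + 1) → FaceT S m)).filter
      (fun σ => (∀ j, hat (σ j).1 ≤ hat F.1) ∧ finrank ℝ (⨅ j, hat (σ j).1 : Submodule ℝ (E × ℝ)) ≤ 1),
        ∏ j, (Measure.euclideanHausdorffMeasure m : Measure E) (σ j).1) ^ p :=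
        Finset.sum_le_sum (fun F _ => h1 F)
    _ ≤ _ := hJ

/-- the explicit constant: the product of `(m + 1) ^ (1 / m)` over `k ≤ m < s` -/
noncomputable def cst (k s : ℕ) : NNReal :=
  ∏ m ∈ Finset.Ico k s, ((m + 1 : ℕ) : NNReal) ^ ((1 : ℝ) / (m : ℝ))

lemma cst_pos (k s : ℕ) : 0 < cst k s := by
  apply Finset.prod_pos
  intro m _
  apply NNReal.rpow_pos
  positivity

/-- comparison of all contents, with an explicit constant -/
theorem Zv_le (k : ℕ) (hk : 1 ≤ k) (s : ℕ) (hs : k ≤ s) (S : Finset E) :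
    Zv S s ^ ((1 : ℝ) / (s : ℝ)) ≤ (cst k s : ENNReal) * (Zv S k) ^ ((1 : ℝ) / (k : ℝ)) := by
  have hk0 : (0 : ℝ) < k := by exact_mod_cast hk
  induction s, hs using Nat.le_induction with
  | base =>
    simp [cst]
  | succ s hs ih =>
    have hs0 : (0 : ℝ) < s := by
      have : 0 < s := by omega
      exact_mod_cast this
    have h1 := Zv_succ_le s (by omega) S
    have hs1 : (0 : ℝ) < ((s + 1 : ℕ) : ℝ) := by positivity
    calc Zv S (s + 1) ^ ((1 : ℝ) / ((s + 1 : ℕ) : ℝ))
        ≤ ((((s + 1 : ℕ) : ENNReal) * Zv S s) ^ (((s + 1 : ℕ) : ℝ) / (s : ℝ))) ^ ((1 : ℝ) / ((s + 1 : ℕ) : ℝ)) := by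
          gcongr
      _ = (((s + 1 : ℕ) : ENNReal) * Zv S s) ^ ((1 : ℝ) / (s : ℝ)) := by
          rw [← ENNReal.rpow_mul]
          congr 1
          field_simp
      _ = ((s + 1 : ℕ) : ENNReal) ^ ((1 : ℝ) / (s : ℝ)) * Zv S s ^ ((1 : ℝ) / (s : ℝ)) := by
          rw [ENNReal.mul_rpow_of_nonneg _ _ (by positivity)]
      _ ≤ ((s + 1 : ℕ) : ENNReal) ^ ((1 : ℝ) / (s : ℝ)) *
            ((cst k s : ENNReal) * (Zv S k) ^ ((1 : ℝ) / (k : ℝ))) := by
          gcongr
      _ = _ := by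
          rw [← mul_assoc]
          congr 1
          unfold cst
          rw [Finset.prod_Ico_succ_top hs, ENNReal.coe_mul, mul_comm]
          congr 1
          rw [ENNReal.coe_rpow_of_nonneg _ (by positivity)]
          norm_cast

end Pool.Agent.H52.Cont
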